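import Mathlib
import Pool.Agent.H5.Sturm

set_option autoImplicit false

namespace Pool.Agent.Results.MP_2aac2f_an.No

open Set TopologicalSpace
open scoped NNReal

/-- `Span T n ε`: least size of a set `E` such that every `x` has `y ∈ E` with `d_n(x,y) < ε` -/
noncomputable def Span {X : Type} [MetricSpace X] (T : X → X) (n : ℕ) (ε : ℝ) : ℕ :=
  sInf {k | ∃ E : Finset X, E.card = k ∧ ∀ x, ∃ y ∈ E, ∀ i < n, dist (T^[i] x) (T^[i] y) < ε}

/-- non-decreasing sequences `{1, 2, ...} → [0, ∞)` -/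
structure Sq : Type where
  a : ℕ+ → ℝ≥0
  mono : Monotone a

/-- `a ≤ b` iff `a n ≤ C * b n` for all `n`, for some `C > 0` -/
instance : Preorder Sq where
  le a b := ∃ C : ℝ≥0, 0 < C ∧ ∀ n, a.a n ≤ C * b.a n
  le_refl a := ⟨1, one_pos, fun n => (one_mul _).ge⟩
  le_trans a b c := fun ⟨C, hC, h⟩ ⟨C', hC', h'⟩ => ⟨C * C', mul_pos hC hC', fun n =>
    (h n).trans (by rw [mul_assoc]; exact mul_le_mul_of_nonneg_left (h' n) hC.le)⟩

/-- orders of growth: the classes of sequences that bound each other up to constants -/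
abbrev Growth : Type := Antisymmetrization Sq (· ≤ ·)

/-- the class `[a]`, in the Dedekind-MacNeille completion of the orders of growth -/
def cls (a : Sq) : DedekindCut Growth := DedekindCut.principal (toAntisymmetrization (· ≤ ·) a)

/-- the generalized entropy `o(T) = sup {[Span(T, n, ε)] : ε > 0}` -/
noncomputable def genEntropy {X : Type} [MetricSpace X] (T : X → X) : DedekindCut Growth :=
  sSup {c | ∃ ε > 0, ∃ a : Sq, (∀ n : ℕ+, a.a n = Span T n ε) ∧ c = cls a}

/-- the sequence `n` -/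
def linear : Sq := ⟨fun n => ((n : ℕ) : ℝ≥0), fun _ _ h => Nat.cast_le.2 h⟩

open Pool.Agent.H5.Sturm in
theorem result : ∃ (X : Type) (_ : MetricSpace X) (_ : CompactSpace X) (T : X → X)
    (hT : Continuous T), genEntropy T = cls linear ∧
      Dynamics.coverEntropy (fun K : NonemptyCompacts X => K.map T hT) univ = 0 := by
  refine ⟨X, inferInstance, inferInstance, T, cont_T, le_antisymm (sSup_le ?_) ?_, entropy⟩
  · rintro _ ⟨ε, hε, a, ha, rfl⟩
    obtain ⟨L, hL⟩ := exists_pow_lt_of_lt_one hε (by norm_num : (1 / 2 : ℝ) < 1)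
    refine DedekindCut.principal_le_principal.2 ⟨2 * L + 3, by positivity, fun n => ?_⟩
    obtain ⟨E, h1, h2⟩ := span_upper n L
    have h3 : Span T n ε ≤ E.card := Nat.sInf_le ⟨E, rfl, fun x =>
      (h2 x).imp fun y hy => ⟨hy.1, fun i hi => (hy.2 i hi).trans_lt hL⟩⟩
    have h4 : Span T n ε ≤ (2 * L + 3) * (n : ℕ) := by nlinarith [n.pos]
    rw [ha]
    change _ ≤ _ * ((n : ℕ) : ℝ≥0)
    exact_mod_cast h4
  · have h : ∀ n, ∃ E : Finset X, E.card = Span T n 1 ∧
        ∀ x, ∃ y ∈ E, ∀ i < n, dist (T^[i] x) (T^[i] y) < 1 := by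
      intro n
      obtain ⟨E, -, h2⟩ := span_upper n 1
      exact Nat.sInf_mem (s := {k | ∃ E : Finset X, E.card = k ∧
        ∀ x, ∃ y ∈ E, ∀ i < n, dist (T^[i] x) (T^[i] y) < 1}) ⟨_, E, rfl, fun x =>
        (h2 x).imp fun y hy => ⟨hy.1, fun i hi => (hy.2 i hi).trans_lt (by norm_num)⟩⟩
    let a : Sq := ⟨fun n => Span T n 1, fun m n hmn => by
      obtain ⟨E, h1, h2⟩ := h n
      refine Nat.cast_le.2 (h1 ▸ Nat.sInf_le ⟨E, rfl, fun x => (h2 x).imp fun y hy =>
        ⟨hy.1, fun i hi => hy.2 i (hi.trans_le hmn)⟩⟩)⟩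
    refine le_trans ?_ (le_sSup ⟨1, one_pos, a, fun _ => rfl, rfl⟩)
    refine DedekindCut.principal_le_principal.2 ⟨1, one_pos, fun n => ?_⟩
    obtain ⟨E, h1, h2⟩ := h n
    rw [one_mul]
    exact Nat.cast_le.2 (h1 ▸ span_lower n E h2)

end Pool.Agent.Results.MP_2aac2f_an.No
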